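import Mathlib
import Pool.Agent.Q157.AltFree

/-!
# MP_79a1cb_co, Q1: long alternation-free subsequences of arbitrary sequences

For every `n ≥ 5` we prove `ss (m, a_n) / √m → ∞`, where `a_n = abab...` is the alternation of
length `n`.
-/

namespace Pool.Agent.Results.MP_79a1cb_co.AlternationFree

open Filter Finset

/-- Two words are isomorphic if one becomes the other under a renaming of letters which is
injective on the letters that occur. -/
def Isomorphic {α β : Type} (u : List α) (v : List β) : Prop :=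
  ∃ f : α → β, (∀ a ∈ u, ∀ b ∈ u, f a = f b → a = b) ∧ u.map f = v

/-- `u` is `v`-free: no subsequence of `u` is isomorphic to `v`. -/
def Free {α β : Type} (v : List β) (u : List α) : Prop :=
  ∀ s : List α, s.Sublist u → ¬ Isomorphic s v

/-- The largest length of a `v`-free subsequence of `u`. -/
noncomputable def LSS {α β : Type} (u : List α) (v : List β) : ℕ :=
  sSup {k | ∃ s : List α, s.Sublist u ∧ Free v s ∧ s.length = k}

/-- The minimum of `LSS u v` over all words `u` of length `m`, over all alphabets. -/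
noncomputable def ss {β : Type} (m : ℕ) (v : List β) : ℕ :=
  sInf {k | ∃ (α : Type) (u : List α), u.length = m ∧ LSS u v = k}

/-- The alternation `abab...` of length `n`, with `a = true` and `b = false`. -/
def alternation (n : ℕ) : List Bool := (List.range n).map fun i => decide (i % 2 = 0)

/-- A set of positions without `ababa` gives an alternation-free subsequence. -/
theorem sublist_of_AF {α : Type} {n : ℕ} (hn : 5 ≤ n) (u : List α) (w : ℕ → ℕ)
    (hw : ∀ i j (hi : i < u.length) (hj : j < u.length), w i = w j ↔ u[i] = u[j])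
    (I : Finset ℕ) (hI : I ⊆ range u.length) (hAF : Pool.Agent.Q157.AltFree.AF w I) :
    ∃ s : List α, s.Sublist u ∧ Free (alternation n) s ∧ s.length = I.card := by
  classical
  set J : Finset (Fin u.length) := univ.filter fun i => i.val ∈ I with hJ
  have hJc : J.card = I.card := by
    refine Finset.card_bij (fun i _ => i.val) ?_ ?_ ?_
    · intro i hi
      simpa [hJ] using hi
    · intro i _ j _ h
      exact Fin.ext h
    · intro p hp
      exact ⟨⟨p, mem_range.1 (hI hp)⟩, by simpa [hJ] using hp, rfl⟩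
  have hsort : (J.sort (· ≤ ·)).Pairwise (· < ·) := (sortedLT_sort J).pairwise
  refine ⟨(J.sort (· ≤ ·)).map fun i => u[i.val], List.map_getElem_sublist hsort, ?_, ?_⟩
  · rintro s hs ⟨f, hf, hfs⟩
    obtain ⟨L, hL, rfl⟩ := List.sublist_map_iff.1 hs
    have hLp : L.Pairwise (· < ·) := hsort.sublist hL
    have hLm : ∀ i ∈ L, i.val ∈ I := by
      intro i hi
      have := hL.subset hi
      rw [Finset.mem_sort] at this
      simpa [hJ] using this
    have hlen : L.length = n := by
      have := congrArg List.length hfs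
      simpa [alternation] using this
    have hval : ∀ k (hk : k < L.length), f (u[(L[k]).val]) = decide (k % 2 = 0) := by
      intro k hk
      have h1 : ((L.map fun i => u[i.val]).map f)[k]? = (alternation n)[k]? := by rw [hfs]
      rw [alternation, List.getElem?_map, List.getElem?_map, List.getElem?_map,
        List.getElem?_eq_getElem hk, List.getElem?_range (by omega)] at h1
      simpa using h1
    have hlt : ∀ k k' (hk : k < L.length) (hk' : k' < L.length), k < k' →
        (L[k]).val < (L[k']).val := by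
      intro k k' hk hk' h
      exact List.pairwise_iff_getElem.1 hLp k k' hk hk' h
    have hmem : ∀ k (hk : k < L.length), (L[k]).val ∈ I := fun k hk =>
      hLm _ (List.getElem_mem hk)
    have heq : ∀ k k' (hk : k < L.length) (hk' : k' < L.length),
        f (u[(L[k]).val]) = f (u[(L[k']).val]) → w (L[k]).val = w (L[k']).val := by
      intro k k' hk hk' h
      rw [hw _ _ (L[k]).isLt (L[k']).isLt]
      refine hf _ ?_ _ ?_ h
      · exact List.mem_map.2 ⟨L[k], List.getElem_mem hk, rfl⟩
      · exact List.mem_map.2 ⟨L[k'], List.getElem_mem hk', rfl⟩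
    have h0 : 0 < L.length := by omega
    have h1 : 1 < L.length := by omega
    have h2 : 2 < L.length := by omega
    have h3 : 3 < L.length := by omega
    have h4 : 4 < L.length := by omega
    have key := hAF _ (hmem 0 h0) _ (hmem 1 h1) _ (hmem 2 h2) _ (hmem 3 h3) _ (hmem 4 h4)
      (hlt 0 1 h0 h1 (by norm_num)) (hlt 1 2 h1 h2 (by norm_num)) (hlt 2 3 h2 h3 (by norm_num))
      (hlt 3 4 h3 h4 (by norm_num))
      (heq 0 2 h0 h2 (by rw [hval 0 h0, hval 2 h2]))
      (heq 2 4 h2 h4 (by rw [hval 2 h2, hval 4 h4]))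
      (heq 1 3 h1 h3 (by rw [hval 1 h1, hval 3 h3]))
    rw [hw _ _ (L[0]).isLt (L[1]).isLt] at key
    have h01 := hval 0 h0
    rw [key, hval 1 h1] at h01
    simp at h01
  · rw [List.length_map, Finset.length_sort, hJc]

theorem bddAbove_LSS {α β : Type} (u : List α) (v : List β) :
    BddAbove {k | ∃ s : List α, s.Sublist u ∧ Free v s ∧ s.length = k} := by
  refine ⟨u.length, ?_⟩
  rintro k ⟨s, hs, _, rfl⟩
  exact hs.length_le

/-- **Answer to Q1 (positive, for every `n ≥ 5`).** -/
theorem result (n : ℕ) (hn : 5 ≤ n) :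
    Tendsto (fun m : ℕ => (ss m (alternation n) : ℝ) / √(m : ℝ)) atTop atTop := by
  classical
  rw [tendsto_atTop]
  intro b
  obtain ⟨K, hK⟩ : ∃ K : ℕ, b ≤ K ∧ 1 ≤ K := by
    refine ⟨⌈b⌉₊ + 1, ?_, by omega⟩
    push_cast
    linarith [Nat.le_ceil b]
  have hC : 1 ≤ 4 * K ^ 2 := by nlinarith [hK.2]
  obtain ⟨L₀, hL₀⟩ := Pool.Agent.Q157.AltFree.main (4 * K ^ 2) hC
  filter_upwards [eventually_ge_atTop (L₀ ^ 2 + 1)] with m hm
  have hm1 : 1 ≤ m := by omega
  have hsq : (1 : ℝ) ≤ √(m : ℝ) := by
    rw [Real.one_le_sqrt]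
    exact_mod_cast hm1
  have hsqq : √(m : ℝ) * √(m : ℝ) = m := Real.mul_self_sqrt (by positivity)
  have hK1 : (1 : ℝ) ≤ K := by exact_mod_cast hK.2
  set L : ℕ := ⌈(K : ℝ) * √(m : ℝ)⌉₊ with hL
  have hLlow : (K : ℝ) * √(m : ℝ) ≤ L := Nat.le_ceil _
  have hLup : (L : ℝ) ≤ 2 * K * √(m : ℝ) := by
    have := Nat.ceil_lt_add_one (show (0 : ℝ) ≤ (K : ℝ) * √(m : ℝ) by positivity)
    have h2 : (1 : ℝ) ≤ K * √(m : ℝ) := by nlinarith
    rw [← hL] at this
    linarith
  have hLL0 : L₀ ≤ L := by
    have h1 : (L₀ : ℝ) ≤ √(m : ℝ) := by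
      apply Real.le_sqrt_of_sq_le
      have : L₀ ^ 2 ≤ m := by omega
      exact_mod_cast this
    have h2 : (L₀ : ℝ) ≤ L := by nlinarith
    exact_mod_cast h2
  have hLm : L ^ 2 ≤ 4 * K ^ 2 * m := by
    have h1 : (L : ℝ) ^ 2 ≤ 4 * K ^ 2 * m := by
      calc (L : ℝ) ^ 2 ≤ (2 * K * √(m : ℝ)) ^ 2 := by
            apply pow_le_pow_left₀ (by positivity) hLup
        _ = 4 * K ^ 2 * (√(m : ℝ) * √(m : ℝ)) := by ring
        _ = 4 * K ^ 2 * m := by rw [hsqq]
    exact_mod_cast h1
  have hss : L ≤ ss m (alternation n) := by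
    refine le_csInf ?_ ?_
    · exact ⟨_, Unit, List.replicate m (), by simp, rfl⟩
    · rintro k ⟨α, u, hu, rfl⟩
      set w : ℕ → ℕ := fun p => if h : p < u.length then u.idxOf u[p] else 0 with hw
      obtain ⟨I, hI, hAF, hLI⟩ := hL₀ L hLL0 m hLm w
      obtain ⟨s, hs, hfree, hlen⟩ := sublist_of_AF hn u w (by
        intro i j hi hj
        simp only [hw, dif_pos hi, dif_pos hj]
        constructor
        · intro h
          exact (List.idxOf_inj (List.getElem_mem hi)).1 h
        · intro h
          rw [h]) I (by rw [hu]; exact hI) hAF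
      refine hLI.trans ?_
      exact le_csSup (bddAbove_LSS u _) ⟨s, hs, hfree, hlen⟩
  rw [le_div_iff₀ (by linarith)]
  have h3 : (L : ℝ) ≤ (ss m (alternation n) : ℝ) := by exact_mod_cast hss
  have h4 : b * √(m : ℝ) ≤ K * √(m : ℝ) := by
    apply mul_le_mul_of_nonneg_right hK.1 (by linarith)
  linarith

end Pool.Agent.Results.MP_79a1cb_co.AlternationFree
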